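import Pool.Agent.W957.CH.StmB

/-! Project CH (MP_d275fd_co, S11629): part XP1, bounded number of attachments of a piece
in one free interval. -/

namespace Pool.Agent.W300.CH

open Finset Pool.Agent.W957.CH

/-- a chain starting in `S` and containing a vertex outside `S` leaves `S` at some edge -/
theorem chain_exit {V : Type} (G : SimpleGraph V) (S : Finset V) :
    ∀ (l : List V) (u t : V), l.IsChain G.Adj → l.head? = some u → u ∈ S → t ∈ l → t ∉ S →
      ∃ p ∈ S, ∃ w ∈ l, w ∉ S ∧ G.Adj p w := by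
  intro l
  induction l with
  | nil => intro u t _ h _ _ _; simp at h
  | cons x l ih =>
    intro u t hc hu huS ht htS
    simp only [List.head?_cons, Option.some.injEq] at hu
    subst hu
    cases l with
    | nil =>
      simp only [List.mem_singleton] at ht
      exact absurd (ht ▸ huS) htS
    | cons y l =>
      rw [List.isChain_cons_cons] at hc
      by_cases hy : y ∈ S
      · have htl : t ∈ y :: l := by
          rcases List.mem_cons.1 ht with h | h
          · exact absurd (h ▸ huS) htS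
          · exact h
        obtain ⟨p, hp, w, hw, hwS, ha⟩ := ih y t hc.2 rfl hy htl htS
        exact ⟨p, hp, w, List.mem_cons_of_mem _ hw, hwS, ha⟩
      · exact ⟨x, huS, y, by simp, hy, hc.1⟩

/-- in a connected set a nonempty proper subset has a neighbour -/
theorem nbr_nonempty {V : Type} (G : SimpleGraph V) (W S : Finset V) (hW : Con G W)
    (hSW : S ⊆ W) (hS : S.Nonempty) (t : V) (ht : t ∈ W) (htS : t ∉ S) :
    (nbr G W S).Nonempty := by
  obtain ⟨s, hs⟩ := hS
  obtain ⟨l, hl, hlW⟩ := hW.2 s (hSW hs) t ht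
  have htl : t ∈ l := List.mem_of_getLast? hl.2.2
  obtain ⟨p, hp, w, hw, hwS, ha⟩ := chain_exit G S l s t hl.1.2 hl.2.1 hs htl htS
  exact ⟨w, by simp only [nbr, mem_filter]; exact ⟨hlW w hw, hwS, p, hp, ha⟩⟩

/-- every pendant set contains an end clump -/
theorem exists_ec {V : Type} [DecidableEq V] (G : SimpleGraph V) (W T : Finset V) :
    ∀ (k : ℕ) (S : Finset V), S.card ≤ k → Pen G W T S → ∃ S0 ⊆ S, EC G W T S0 := by
  intro k
  induction k with
  | zero =>
    intro S hS hP
    exact absurd hP.1 (by rw [card_eq_zero.1 (Nat.le_zero.1 hS)]; simp)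
  | succ k ih =>
    intro S hS hP
    by_cases h : ∃ S', S' ⊂ S ∧ Pen G W T S'
    · obtain ⟨S', hss, hP'⟩ := h
      have hlt := card_lt_card hss
      obtain ⟨S0, h0, h1⟩ := ih S' (by omega) hP'
      exact ⟨S0, h0.trans hss.1, h1⟩
    · exact ⟨S, Subset.refl _, hP, fun S' hs hp => h ⟨S', hs, hp⟩⟩

/-- reversal of a path -/
theorem pf_rev {V : Type} {G : SimpleGraph V} {u v : V} {l : List V} (h : PF G u v l) :
    PF G v u l.reverse := by
  refine ⟨⟨List.nodup_reverse.2 h.1.1, ?_⟩, ?_, ?_⟩
  · rw [List.isChain_reverse]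
    exact h.1.2.imp (fun a b hab => hab.symm)
  · rw [List.head?_reverse]; exact h.2.2
  · rw [List.getLast?_reverse]; exact h.2.1

theorem t_XP1 (h1 : S_EAR) (h2 : S_A) (h3 : S_CORE) (h4 : S_PB) : S_XP1 := by
  classical
  intro V _ X n c a b N W T hOk hGood hPc hab hbn hFree h2n h3att hN
  -- representatives of attached positions
  have hA := h2 V X n c a b W T hOk hGood hPc hab hbn hFree h2n h3att
  obtain ⟨w0, hw0⟩ := hPc.con.1
  have hf : ∀ i, ∃ v, i ∈ att X.G c a b W → v ∈ W ∧ X.G.Adj v (c i) := by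
    intro i
    by_cases hi : i ∈ att X.G c a b W
    · have hi' := hi
      simp only [att, mem_filter] at hi'
      obtain ⟨v, hv, hav⟩ := hi'.2
      exact ⟨v, fun _ => ⟨hv, hav⟩⟩
    · exact ⟨w0, fun h => absurd h hi⟩
  choose f hf using hf
  have hattI : ∀ i ∈ att X.G c a b W, a ≤ i ∧ i ≤ b := by
    intro i hi
    simp only [att, mem_filter, mem_Icc] at hi
    exact hi.1
  have hinj : Set.InjOn f (att X.G c a b W : Set ℕ) := by
    intro i hi j hj hij
    have hi' : i ∈ att X.G c a b W := hi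
    have hj' : j ∈ att X.G c a b W := hj
    have := hA (f i) (hf i hi').1 i (hattI i hi').1 (hattI i hi').2 (hf i hi').2 j
      (lt_of_le_of_lt (hattI j hj').2 hbn) (by rw [hij]; exact (hf j hj').2)
    exact this.symm
  set D : Finset V := (att X.G c a b W).image f with hD
  have hDcard : D.card = (att X.G c a b W).card := card_image_of_injOn hinj
  have hd : ∀ v, ∃ i, v ∈ D → i ∈ att X.G c a b W ∧ f i = v := by
    intro v
    by_cases hv : v ∈ D
    · obtain ⟨i, hi, he⟩ := mem_image.1 hv
      exact ⟨i, fun _ => ⟨hi, he⟩⟩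
    · exact ⟨0, fun h => absurd h hv⟩
  choose d hd using hd
  have hDW : D ⊆ W := by
    intro v hv
    obtain ⟨i, hi, rfl⟩ := mem_image.1 hv
    exact (hf i hi).1
  have hdI : ∀ v ∈ D, a ≤ d v ∧ d v ≤ b ∧ X.G.Adj v (c (d v)) := by
    intro v hv
    obtain ⟨h5, h6⟩ := hd v hv
    refine ⟨(hattI _ h5).1, (hattI _ h5).2, ?_⟩
    have := (hf _ h5).2
    rwa [h6] at this
  have hdinj : ∀ v ∈ D, ∀ w ∈ D, d v = d w → v = w := by
    intro v hv w hw he
    rw [← (hd v hv).2, ← (hd w hw).2, he]
  -- two vertices of W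
  have h2D : 2 ≤ D.card := by omega
  obtain ⟨d1, hd1, d2, hd2, h12⟩ := Finset.one_lt_card.1 (show 1 < D.card by omega)
  -- end clumps
  set E : Finset (Finset V) := W.powerset.filter (fun S => EC X.G W T S) with hE
  have hEN : E.card ≤ N := hN E (fun S hS => (mem_filter.1 hS).2)
  have hrep : ∀ S : Finset V, ∃ v, S.Nonempty → v ∈ S := by
    intro S
    by_cases hS : S.Nonempty
    · obtain ⟨v, hv⟩ := hS
      exact ⟨v, fun _ => hv⟩
    · exact ⟨w0, fun h => absurd h hS⟩
  choose rep hrep using hrep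
  set T' : Finset V := T ∪ E.image rep ∪ {d1, d2} with hT'
  have hTT' : T ⊆ T' := fun x hx => by
    rw [hT']; exact mem_union_left _ (mem_union_left _ hx)
  have hET' : ∀ S ∈ E, rep S ∈ T' := fun S hS => by
    rw [hT']; exact mem_union_left _ (mem_union_right _ (mem_image_of_mem _ hS))
  have hd1T' : d1 ∈ T' := by rw [hT']; exact mem_union_right _ (by simp)
  have hd2T' : d2 ∈ T' := by rw [hT']; exact mem_union_right _ (by simp)
  have hT'W : T' ⊆ W := by
    intro x hx
    rw [hT'] at hx
    rcases mem_union.1 hx with h | h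
    · rcases mem_union.1 h with h | h
      · exact hPc.TW h
      · obtain ⟨S, hS, rfl⟩ := mem_image.1 h
        have h7 := (mem_filter.1 hS)
        exact (mem_powerset.1 h7.1) (hrep S h7.2.1.1)
    · simp only [mem_insert, mem_singleton] at h
      rcases h with rfl | rfl
      · exact hDW hd1
      · exact hDW hd2
  have hT'2 : 2 ≤ T'.card := Finset.one_lt_card.2 ⟨d1, hd1T', d2, hd2T', h12⟩
  have hT'N : T'.card ≤ T.card + N + 2 := by
    calc T'.card ≤ (T ∪ E.image rep).card + ({d1, d2} : Finset V).card := card_union_le _ _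
      _ ≤ (T.card + (E.image rep).card) + 2 := by
          gcongr
          · exact card_union_le _ _
          · exact card_le_two
      _ ≤ T.card + N + 2 := by
          have := card_image_le (s := E) (f := rep)
          omega
  -- the neighbour condition
  have hnb : ∀ S ⊆ W, S.Nonempty → Disjoint S T' → 2 ≤ (nbr X.G W S).card := by
    intro S hSW hSne hST'
    have h8 : d1 ∉ S := fun h => (Finset.disjoint_left.1 hST') h hd1T'
    have hne := nbr_nonempty X.G W S hPc.con hSW hSne d1 (hDW hd1) h8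
    by_contra hlt
    have hc1 : (nbr X.G W S).card = 1 := by
      have := hne.card_pos
      omega
    have hnot : ¬ W ⊆ S ∪ nbr X.G W S := by
      intro hsub
      have hT'sub : T' ⊆ nbr X.G W S := by
        intro x hx
        rcases mem_union.1 (hsub (hT'W hx)) with h | h
        · exact absurd hx (Finset.disjoint_left.1 hST' h)
        · exact h
      have := card_le_card hT'sub
      omega
    have hPen : Pen X.G W T S :=
      ⟨hSne, hSW, Finset.disjoint_of_subset_right hTT' hST', hc1, hnot⟩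
    obtain ⟨S0, hS0, hEC⟩ := exists_ec X.G W T S.card S le_rfl hPen
    have hmem : S0 ∈ E := by
      rw [hE, mem_filter, mem_powerset]
      exact ⟨hS0.trans hSW, hEC⟩
    exact (Finset.disjoint_left.1 hST') (hS0 (hrep S0 hEC.1.1)) (hET' S0 hmem)
  -- betweenness, one direction
  have hbet1 : ∀ v ∈ D, ∀ w ∈ D, d v < d w → ∀ l, PF X.G v w l → (∀ x ∈ l, x ∈ W) →
      ∀ u ∈ l, u ∈ D → u ≠ v → u ≠ w → (d v < d u ∧ d u < d w) := by
    intro v hv w hw hvw l hl hlW u hu huD huv huw
    have hear : Ear X n c (d v) (d w) l := by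
      refine ⟨⟨v, w, hl, (hdI v hv).2.2.symm, (hdI w hw).2.2⟩, ?_⟩
      intro x hx
      exact ⟨hPc.sub (hlW x hx), Finset.disjoint_left.1 hPc.dis (hlW x hx)⟩
    have h9 := h1 V X n c (d v) (d w) l hOk hGood hvw (lt_of_le_of_lt (hdI w hw).2.1 hbn)
      (fun i hi1 hi2 => hFree i (le_trans (hdI v hv).1 hi1) (le_trans hi2 (hdI w hw).2.1))
      (by have := (hdI v hv).1; have := (hdI w hw).2.1; omega) hear
    by_contra hcon
    have hor : d u ≤ d v ∨ d w ≤ d u := by
      by_contra hh
      push Not at hh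
      exact hcon hh
    rcases h9.2.1 u hu (d u) (lt_of_le_of_lt (hdI u huD).2.1 hbn) hor (hdI u huD).2.2 with
      ⟨_, h⟩ | ⟨_, h⟩
    · rw [hl.2.1] at h
      exact huv (Option.some.inj h).symm
    · rw [hl.2.2] at h
      exact huw (Option.some.inj h).symm
  have hbet : ∀ v ∈ D, ∀ w ∈ D, v ≠ w → ∀ l, PF X.G v w l → (∀ x ∈ l, x ∈ W) →
      ∀ u ∈ l, u ∈ D → u ≠ v → u ≠ w →
      (d v < d u ∧ d u < d w) ∨ (d w < d u ∧ d u < d v) := by
    intro v hv w hw hvw l hl hlW u hu huD huv huw
    rcases lt_trichotomy (d v) (d w) with h | h | h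
    · exact Or.inl (hbet1 v hv w hw h l hl hlW u hu huD huv huw)
    · exact absurd (hdinj v hv w hw h) hvw
    · exact Or.inr (hbet1 w hw v hv h l.reverse (pf_rev hl)
        (fun x hx => hlW x (List.mem_reverse.1 hx)) u (List.mem_reverse.2 hu) huD huw huv)
  -- conclusion
  have hcore := h3 V X.G W T' D d (X.m + 3) hPc.con hT'W hT'2 hDW (by omega) hnb hbet
    (fun l hl hlW => h4 V X n c a b W D d l hOk hGood hPc.sub hPc.dis hab hbn hFree h2n hDW
      hdI hdinj hl hlW)
  rw [← hDcard]
  calc D.card ≤ T'.card + T'.card ^ 2 * (X.m + 3) := hcore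
    _ ≤ _ := by gcongr

end Pool.Agent.W300.CH
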